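import Pool.Agent.P.MP_4b59b0_al.Cls.Limit

set_option autoImplicit false

namespace Pool.Agent.Results.MP_4b59b0_al.QuotientClassification

/-- Let `Q` be a finite group and `n ≥ 2`. The verbal subgroup `vG` is finite for every word `v`
in `n` variables and every group `G` whose marginal quotient `G / v*G` is isomorphic to `Q` (there
is a surjection `ψ : G → Q` whose kernel is exactly the marginal subgroup) if and only if `Q` is
cyclic. -/
theorem result (Q : Type) [Group Q] [Finite Q] (n : ℕ) (hn : 2 ≤ n) :
    (∀ (v : FreeGroup (Fin n)) (G : Type) [Group G] (ψ : G →* Q), Function.Surjective ψ →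
      (∀ a : G, ψ a = 1 ↔ ∀ (f : Fin n → G) (i : Fin n),
        FreeGroup.lift (Function.update f i (f i * a)) v = FreeGroup.lift f v) →
      ((Subgroup.closure (Set.range (fun f : Fin n → G => FreeGroup.lift f v)) : Subgroup G)
        : Set G).Finite) ↔ IsCyclic Q := by
  constructor
  · intro h
    by_contra hQ
    obtain ⟨v, G, _, ψ, h1, h2, h3⟩ := Pool.Agent.P.MP_4b59b0_al.Cls.noncyclic Q hQ n hn
    exact h3 (h v G ψ h1 h2)
  · intro hQ v G _ ψ h1 h2
    exact Pool.Agent.P.MP_4b59b0_al.Cls.cyclic Q hQ n v G ψ h1 fun a ha => (h2 a).1 ha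

end Pool.Agent.Results.MP_4b59b0_al.QuotientClassification
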